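import Mathlib

/-!
# Maker-Breaker chain games on simplex posets: the sequence game in dimension three

Problem MP_ee952b_co.  `Q d n` is the poset of all `x : Fin d → ℕ` with coordinate sum at most `n`,
ordered componentwise.  In the sequence game Maker (who moves first) and Breaker alternately claim
elements until everything is claimed; Maker's score is the largest `k` such that she claimed
`y_1 < y_2 < ... < y_k` in this temporal order.

We show that Breaker can keep the score on `Q 3 n` at most `(n+1) - (n+1)/8` (floor division),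
which is smaller than the height `n+1` as soon as `n ≥ 7`.
-/

set_option autoImplicit false

namespace Pool.Agent.Results.MP_ee952b_co.FoolTrapped

/-- The simplex poset: vectors of `d` natural numbers with sum at most `n`, componentwise order. -/
abbrev Q (d n : ℕ) : Type := {x : Fin d → ℕ // ∑ j, x j ≤ n}

/-- The height of a poset: the largest number of elements of a chain. -/
noncomputable def height (P : Type) [PartialOrder P] : ℕ :=
  sSup {k : ℕ | ∃ c : Fin k → P, StrictMono c}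

/-- A play on a finite set `P`: `p i` is the element claimed in move number `i`
(for `i < Nat.card P`); every move claims an element not claimed before, so at the end every
element of `P` has been claimed.  Moves `0, 2, 4, ...` are Maker's, moves `1, 3, 5, ...` are
Breaker's. -/
def IsPlay {P : Type} (p : ℕ → P) : Prop := Set.InjOn p {i | i < Nat.card P}

/-- A strategy maps the list of all moves made so far (in order) to the next move.  It is legal if
it picks an element not yet claimed whenever there is one. -/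
def Legal {P : Type} (s : List P → P) : Prop :=
  ∀ l : List P, l.Nodup → l.length < Nat.card P → s l ∉ l

/-- In the play `p` Maker follows the strategy `s`. -/
def MakerFollows {P : Type} (s : List P → P) (p : ℕ → P) : Prop :=
  ∀ i, i < Nat.card P → Even i → p i = s ((List.range i).map p)

/-- In the play `p` Breaker follows the strategy `s`. -/
def BreakerFollows {P : Type} (s : List P → P) (p : ℕ → P) : Prop :=
  ∀ i, i < Nat.card P → ¬ Even i → p i = s ((List.range i).map p)

/-- Maker's score in the sequence game is at least `k`: at `k` increasing times she claimed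
increasing elements of `P`. -/
def ScoreAtLeast {P : Type} [PartialOrder P] (p : ℕ → P) (k : ℕ) : Prop :=
  ∃ s : Fin k → ℕ, StrictMono s ∧ (∀ a, s a < Nat.card P ∧ Even (s a)) ∧
    StrictMono (fun a => p (s a))

/-- Maker can guarantee the score `k` in the sequence game on `P`. -/
def Guarantees (P : Type) [PartialOrder P] (k : ℕ) : Prop :=
  ∃ s : List P → P, Legal s ∧ ∀ p : ℕ → P, IsPlay p → MakerFollows s p → ScoreAtLeast p k

/-- The value of the sequence game on `P`: the largest score Maker can guarantee. -/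
noncomputable def gSeq (P : Type) [PartialOrder P] : ℕ := sSup {k : ℕ | Guarantees P k}

/-! ### The fool game -/

/-- `Trap t R`: the fool stands at the origin and has to make a unit step to an unblocked point,
the points of `R` are blocked; Breaker (one new block after each step) can make sure that the fool
makes at most `t` further steps. -/
def Trap {d : ℕ} : ℕ → Set (Fin d → ℕ) → Prop
  | 0, R => ∀ j, (Pi.single j 1 : Fin d → ℕ) ∈ R
  | t + 1, R => ∀ j, (Pi.single j 1 : Fin d → ℕ) ∈ R ∨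
      ∃ b, Trap t (insert b {v | v + Pi.single j 1 ∈ R})

/-- Certificates for the three-dimensional fool game. -/
inductive FT : Type
  | l : FT
  | n : ℕ × ℕ × ℕ → FT → FT → FT → FT

/-- Checker for certificates. -/
def check : FT → ℕ → List (ℕ × ℕ × ℕ) → Bool
  | FT.l, _, _ => false
  | FT.n b _ _ _, 0, R =>
      (b :: R).contains (1, 0, 0) && (b :: R).contains (0, 1, 0) && (b :: R).contains (0, 0, 1)
  | FT.n b c0 c1 c2, t + 1, R =>
      ((b :: R).contains (1, 0, 0) ||
        check c0 t ((b :: R).filterMap (fun v => if v.1 = 0 then none else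
          some (v.1 - 1, v.2.1, v.2.2)))) &&
      ((b :: R).contains (0, 1, 0) ||
        check c1 t ((b :: R).filterMap (fun v => if v.2.1 = 0 then none else
          some (v.1, v.2.1 - 1, v.2.2)))) &&
      ((b :: R).contains (0, 0, 1) ||
        check c2 t ((b :: R).filterMap (fun v => if v.2.2 = 0 then none else
          some (v.1, v.2.1, v.2.2 - 1))))

open FT in
/-- Breaker's strategy in the three-dimensional fool game, as a tree. -/
def tree : FT :=
  (n (2,2,2) (n (2,1,2) (n (2,2,1) (n (2,1,1) (n (2,0,1) (n (1,1,0) (n (1,0,0) l l l) (n (0,1,0) l l l) (n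
  (0,0,1) l l l)) (n (1,1,0) (n (1,0,0) l l l) (n (0,1,0) l l l) (n (0,0,1) l l l)) (n (0,0,1) (n (0,0,1) l l l)
  (n (0,0,1) l l l) l)) (n (0,2,1) (n (1,1,0) (n (1,0,0) l l l) (n (0,1,0) l l l) (n (0,0,1) l l l)) (n (1,1,0)
  (n (1,0,0) l l l) (n (0,1,0) l l l) (n (0,0,1) l l l)) (n (0,0,1) (n (0,0,1) l l l) (n (0,0,1) l l l) l)) (n
  (1,0,1) (n (1,0,0) l (n (0,0,1) l l l) l) (n (0,1,0) (n (0,0,1) l l l) l l) (n (0,0,1) l l l))) (n (1,2,1) (n
  (2,0,1) (n (1,1,0) (n (1,0,0) l l l) (n (0,1,0) l l l) (n (0,0,1) l l l)) (n (1,1,0) (n (1,0,0) l l l) (n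
  (0,1,0) l l l) (n (0,0,1) l l l)) (n (0,0,1) (n (0,0,1) l l l) (n (0,0,1) l l l) l)) (n (0,2,1) (n (1,1,0) (n
  (1,0,0) l l l) (n (0,1,0) l l l) (n (0,0,1) l l l)) (n (1,1,0) (n (1,0,0) l l l) (n (0,1,0) l l l) (n (0,0,1)
  l l l)) (n (0,0,1) (n (0,0,1) l l l) (n (0,0,1) l l l) l)) (n (0,1,1) (n (1,0,0) l (n (0,0,1) l l l) l) (n
  (0,1,0) (n (0,0,1) l l l) l l) (n (0,0,1) l l l))) (n (2,0,1) (n (1,1,0) (n (1,0,0) l l l) (n (0,1,0) l l l)
  (n (0,0,1) l l l)) (n (1,1,0) (n (1,0,0) l l l) (n (0,1,0) l l l) (n (0,0,1) l l l)) (n (0,0,1) (n (0,0,1) l l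
  l) (n (0,0,1) l l l) l))) (n (2,2,1) (n (2,1,1) (n (2,0,1) (n (1,1,0) (n (1,0,0) l l l) (n (0,1,0) l l l) (n
  (0,0,1) l l l)) (n (1,1,0) (n (1,0,0) l l l) (n (0,1,0) l l l) (n (0,0,1) l l l)) (n (0,0,1) (n (0,0,1) l l l)
  (n (0,0,1) l l l) l)) (n (0,2,1) (n (1,1,0) (n (1,0,0) l l l) (n (0,1,0) l l l) (n (0,0,1) l l l)) (n (1,1,0)
  (n (1,0,0) l l l) (n (0,1,0) l l l) (n (0,0,1) l l l)) (n (0,0,1) (n (0,0,1) l l l) (n (0,0,1) l l l) l)) (n
  (0,1,1) (n (1,0,0) l (n (0,0,1) l l l) l) (n (0,1,0) (n (0,0,1) l l l) l l) (n (0,0,1) l l l))) (n (1,2,1) (n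
  (2,0,1) (n (1,1,0) (n (1,0,0) l l l) (n (0,1,0) l l l) (n (0,0,1) l l l)) (n (1,1,0) (n (1,0,0) l l l) (n
  (0,1,0) l l l) (n (0,0,1) l l l)) (n (0,0,1) (n (0,0,1) l l l) (n (0,0,1) l l l) l)) (n (0,2,1) (n (1,1,0) (n
  (1,0,0) l l l) (n (0,1,0) l l l) (n (0,0,1) l l l)) (n (1,1,0) (n (1,0,0) l l l) (n (0,1,0) l l l) (n (0,0,1)
  l l l)) (n (0,0,1) (n (0,0,1) l l l) (n (0,0,1) l l l) l)) (n (0,1,1) (n (1,0,0) l (n (0,0,1) l l l) l) (n
  (0,1,0) (n (0,0,1) l l l) l l) (n (0,0,1) l l l))) (n (0,2,1) (n (1,1,0) (n (1,0,0) l l l) (n (0,1,0) l l l)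
  (n (0,0,1) l l l)) (n (1,1,0) (n (1,0,0) l l l) (n (0,1,0) l l l) (n (0,0,1) l l l)) (n (0,0,1) (n (0,0,1) l l
  l) (n (0,0,1) l l l) l))) (n (0,0,1) (n (2,0,1) (n (1,1,0) (n (1,0,0) l l l) (n (0,1,0) l l l) (n (0,0,1) l l
  l)) (n (1,1,0) (n (1,0,0) l l l) (n (0,1,0) l l l) (n (0,0,1) l l l)) (n (0,0,1) (n (0,0,1) l l l) (n (0,0,1)
  l l l) l)) (n (0,2,1) (n (1,1,0) (n (1,0,0) l l l) (n (0,1,0) l l l) (n (0,0,1) l l l)) (n (1,1,0) (n (1,0,0)
  l l l) (n (0,1,0) l l l) (n (0,0,1) l l l)) (n (0,0,1) (n (0,0,1) l l l) (n (0,0,1) l l l) l)) l)) (n (1,2,2)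
  (n (2,2,1) (n (2,1,1) (n (2,0,1) (n (1,1,0) (n (1,0,0) l l l) (n (0,1,0) l l l) (n (0,0,1) l l l)) (n (1,1,0)
  (n (1,0,0) l l l) (n (0,1,0) l l l) (n (0,0,1) l l l)) (n (0,0,1) (n (0,0,1) l l l) (n (0,0,1) l l l) l)) (n
  (0,2,1) (n (1,1,0) (n (1,0,0) l l l) (n (0,1,0) l l l) (n (0,0,1) l l l)) (n (1,1,0) (n (1,0,0) l l l) (n
  (0,1,0) l l l) (n (0,0,1) l l l)) (n (0,0,1) (n (0,0,1) l l l) (n (0,0,1) l l l) l)) (n (1,0,1) (n (1,0,0) l
  (n (0,0,1) l l l) l) (n (0,1,0) (n (0,0,1) l l l) l l) (n (0,0,1) l l l))) (n (1,2,1) (n (2,0,1) (n (1,1,0) (n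
  (1,0,0) l l l) (n (0,1,0) l l l) (n (0,0,1) l l l)) (n (1,1,0) (n (1,0,0) l l l) (n (0,1,0) l l l) (n (0,0,1)
  l l l)) (n (0,0,1) (n (0,0,1) l l l) (n (0,0,1) l l l) l)) (n (0,2,1) (n (1,1,0) (n (1,0,0) l l l) (n (0,1,0)
  l l l) (n (0,0,1) l l l)) (n (1,1,0) (n (1,0,0) l l l) (n (0,1,0) l l l) (n (0,0,1) l l l)) (n (0,0,1) (n
  (0,0,1) l l l) (n (0,0,1) l l l) l)) (n (0,1,1) (n (1,0,0) l (n (0,0,1) l l l) l) (n (0,1,0) (n (0,0,1) l l l)
  l l) (n (0,0,1) l l l))) (n (2,0,1) (n (1,1,0) (n (1,0,0) l l l) (n (0,1,0) l l l) (n (0,0,1) l l l)) (n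
  (1,1,0) (n (1,0,0) l l l) (n (0,1,0) l l l) (n (0,0,1) l l l)) (n (0,0,1) (n (0,0,1) l l l) (n (0,0,1) l l l)
  l))) (n (2,2,1) (n (2,1,1) (n (2,0,1) (n (1,1,0) (n (1,0,0) l l l) (n (0,1,0) l l l) (n (0,0,1) l l l)) (n
  (1,1,0) (n (1,0,0) l l l) (n (0,1,0) l l l) (n (0,0,1) l l l)) (n (0,0,1) (n (0,0,1) l l l) (n (0,0,1) l l l)
  l)) (n (0,2,1) (n (1,1,0) (n (1,0,0) l l l) (n (0,1,0) l l l) (n (0,0,1) l l l)) (n (1,1,0) (n (1,0,0) l l l)
  (n (0,1,0) l l l) (n (0,0,1) l l l)) (n (0,0,1) (n (0,0,1) l l l) (n (0,0,1) l l l) l)) (n (0,1,1) (n (1,0,0)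
  l (n (0,0,1) l l l) l) (n (0,1,0) (n (0,0,1) l l l) l l) (n (0,0,1) l l l))) (n (1,2,1) (n (2,0,1) (n (1,1,0)
  (n (1,0,0) l l l) (n (0,1,0) l l l) (n (0,0,1) l l l)) (n (1,1,0) (n (1,0,0) l l l) (n (0,1,0) l l l) (n
  (0,0,1) l l l)) (n (0,0,1) (n (0,0,1) l l l) (n (0,0,1) l l l) l)) (n (0,2,1) (n (1,1,0) (n (1,0,0) l l l) (n
  (0,1,0) l l l) (n (0,0,1) l l l)) (n (1,1,0) (n (1,0,0) l l l) (n (0,1,0) l l l) (n (0,0,1) l l l)) (n (0,0,1)
  (n (0,0,1) l l l) (n (0,0,1) l l l) l)) (n (0,1,1) (n (1,0,0) l (n (0,0,1) l l l) l) (n (0,1,0) (n (0,0,1) l l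
  l) l l) (n (0,0,1) l l l))) (n (0,2,1) (n (1,1,0) (n (1,0,0) l l l) (n (0,1,0) l l l) (n (0,0,1) l l l)) (n
  (1,1,0) (n (1,0,0) l l l) (n (0,1,0) l l l) (n (0,0,1) l l l)) (n (0,0,1) (n (0,0,1) l l l) (n (0,0,1) l l l)
  l))) (n (0,0,1) (n (2,0,1) (n (1,1,0) (n (1,0,0) l l l) (n (0,1,0) l l l) (n (0,0,1) l l l)) (n (1,1,0) (n
  (1,0,0) l l l) (n (0,1,0) l l l) (n (0,0,1) l l l)) (n (0,0,1) (n (0,0,1) l l l) (n (0,0,1) l l l) l)) (n
  (0,2,1) (n (1,1,0) (n (1,0,0) l l l) (n (0,1,0) l l l) (n (0,0,1) l l l)) (n (1,1,0) (n (1,0,0) l l l) (n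
  (0,1,0) l l l) (n (0,0,1) l l l)) (n (0,0,1) (n (0,0,1) l l l) (n (0,0,1) l l l) l)) l)) (n (1,2,2) (n (2,1,2)
  (n (2,1,1) (n (2,1,0) (n (1,0,1) (n (1,0,0) l l l) (n (0,1,0) l l l) (n (0,0,1) l l l)) (n (0,1,0) (n (0,1,0)
  l l l) l (n (0,1,0) l l l)) (n (1,0,1) (n (1,0,0) l l l) (n (0,1,0) l l l) (n (0,0,1) l l l))) (n (1,1,0) (n
  (1,0,0) l l (n (0,1,0) l l l)) (n (0,1,0) l l l) (n (0,0,1) (n (0,1,0) l l l) l l)) (n (0,1,2) (n (1,0,1) (n
  (1,0,0) l l l) (n (0,1,0) l l l) (n (0,0,1) l l l)) (n (0,1,0) (n (0,1,0) l l l) l (n (0,1,0) l l l)) (n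
  (1,0,1) (n (1,0,0) l l l) (n (0,1,0) l l l) (n (0,0,1) l l l)))) (n (2,1,0) (n (1,0,1) (n (1,0,0) l l l) (n
  (0,1,0) l l l) (n (0,0,1) l l l)) (n (0,1,0) (n (0,1,0) l l l) l (n (0,1,0) l l l)) (n (1,0,1) (n (1,0,0) l l
  l) (n (0,1,0) l l l) (n (0,0,1) l l l))) (n (1,1,2) (n (2,1,0) (n (1,0,1) (n (1,0,0) l l l) (n (0,1,0) l l l)
  (n (0,0,1) l l l)) (n (0,1,0) (n (0,1,0) l l l) l (n (0,1,0) l l l)) (n (1,0,1) (n (1,0,0) l l l) (n (0,1,0) l
  l l) (n (0,0,1) l l l))) (n (0,1,1) (n (1,0,0) l l (n (0,1,0) l l l)) (n (0,1,0) l l l) (n (0,0,1) (n (0,1,0)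
  l l l) l l)) (n (0,1,2) (n (1,0,1) (n (1,0,0) l l l) (n (0,1,0) l l l) (n (0,0,1) l l l)) (n (0,1,0) (n
  (0,1,0) l l l) l (n (0,1,0) l l l)) (n (1,0,1) (n (1,0,0) l l l) (n (0,1,0) l l l) (n (0,0,1) l l l))))) (n
  (0,1,0) (n (2,1,0) (n (1,0,1) (n (1,0,0) l l l) (n (0,1,0) l l l) (n (0,0,1) l l l)) (n (0,1,0) (n (0,1,0) l l
  l) l (n (0,1,0) l l l)) (n (1,0,1) (n (1,0,0) l l l) (n (0,1,0) l l l) (n (0,0,1) l l l))) l (n (0,1,2) (n
  (1,0,1) (n (1,0,0) l l l) (n (0,1,0) l l l) (n (0,0,1) l l l)) (n (0,1,0) (n (0,1,0) l l l) l (n (0,1,0) l l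
  l)) (n (1,0,1) (n (1,0,0) l l l) (n (0,1,0) l l l) (n (0,0,1) l l l)))) (n (2,1,2) (n (2,1,1) (n (2,1,0) (n
  (1,0,1) (n (1,0,0) l l l) (n (0,1,0) l l l) (n (0,0,1) l l l)) (n (0,1,0) (n (0,1,0) l l l) l (n (0,1,0) l l
  l)) (n (1,0,1) (n (1,0,0) l l l) (n (0,1,0) l l l) (n (0,0,1) l l l))) (n (0,1,1) (n (1,0,0) l l (n (0,1,0) l
  l l)) (n (0,1,0) l l l) (n (0,0,1) (n (0,1,0) l l l) l l)) (n (0,1,2) (n (1,0,1) (n (1,0,0) l l l) (n (0,1,0)
  l l l) (n (0,0,1) l l l)) (n (0,1,0) (n (0,1,0) l l l) l (n (0,1,0) l l l)) (n (1,0,1) (n (1,0,0) l l l) (n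
  (0,1,0) l l l) (n (0,0,1) l l l)))) (n (0,1,2) (n (1,0,1) (n (1,0,0) l l l) (n (0,1,0) l l l) (n (0,0,1) l l
  l)) (n (0,1,0) (n (0,1,0) l l l) l (n (0,1,0) l l l)) (n (1,0,1) (n (1,0,0) l l l) (n (0,1,0) l l l) (n
  (0,0,1) l l l))) (n (1,1,2) (n (2,1,0) (n (1,0,1) (n (1,0,0) l l l) (n (0,1,0) l l l) (n (0,0,1) l l l)) (n
  (0,1,0) (n (0,1,0) l l l) l (n (0,1,0) l l l)) (n (1,0,1) (n (1,0,0) l l l) (n (0,1,0) l l l) (n (0,0,1) l l
  l))) (n (0,1,1) (n (1,0,0) l l (n (0,1,0) l l l)) (n (0,1,0) l l l) (n (0,0,1) (n (0,1,0) l l l) l l)) (n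
  (0,1,2) (n (1,0,1) (n (1,0,0) l l l) (n (0,1,0) l l l) (n (0,0,1) l l l)) (n (0,1,0) (n (0,1,0) l l l) l (n
  (0,1,0) l l l)) (n (1,0,1) (n (1,0,0) l l l) (n (0,1,0) l l l) (n (0,0,1) l l l)))))))

theorem tree_ok : check tree 6 [] = true := by decide +kernel

theorem Trap.mono {d : ℕ} : ∀ (t : ℕ) {R R' : Set (Fin d → ℕ)}, R ⊆ R' → Trap t R → Trap t R'
  | 0, R, R', h, ht => fun j => h (ht j)
  | t + 1, R, R', h, ht => fun j => by
      rcases ht j with h1 | ⟨b, hb⟩
      · exact Or.inl (h h1)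
      · refine Or.inr ⟨b, Trap.mono t ?_ hb⟩
        exact Set.insert_subset_insert (fun v hv => h hv)

/-- A triple as a vector. -/
def vec (v : ℕ × ℕ × ℕ) : Fin 3 → ℕ := ![v.1, v.2.1, v.2.2]

theorem vec_sound (L : List (ℕ × ℕ × ℕ)) (b : ℕ × ℕ × ℕ) (hb : b ∈ L) :
    vec b ∈ {v | ∃ u ∈ L, vec u = v} := ⟨b, hb, rfl⟩

theorem insert_vec (L : List (ℕ × ℕ × ℕ)) (b : ℕ × ℕ × ℕ) :
    insert (vec b) {v | ∃ u ∈ L, vec u = v} = {v | ∃ u ∈ b :: L, vec u = v} := by
  ext v
  simp only [Set.mem_insert_iff, Set.mem_ofPred_eq, List.mem_cons]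
  constructor
  · rintro (h | ⟨u, hu, h⟩)
    · exact ⟨b, Or.inl rfl, h.symm⟩
    · exact ⟨u, Or.inr hu, h⟩
  · rintro ⟨u, (rfl | hu), h⟩
    · exact Or.inl h.symm
    · exact Or.inr ⟨u, hu, h⟩

theorem e0 : vec (1, 0, 0) = Pi.single 0 1 := by
  funext j; fin_cases j <;> rfl
theorem e1 : vec (0, 1, 0) = Pi.single 1 1 := by
  funext j; fin_cases j <;> rfl
theorem e2 : vec (0, 0, 1) = Pi.single 2 1 := by
  funext j; fin_cases j <;> rfl

theorem check_sound : ∀ (c : FT) (t : ℕ) (R : List (ℕ × ℕ × ℕ)), check c t R = true →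
    ∃ b, Trap t (insert b {v | ∃ u ∈ R, vec u = v})
  | FT.l, t, R, h => by simp [check] at h
  | FT.n b _ _ _, 0, R, h => by
      simp only [check, Bool.and_eq_true, List.contains_iff_mem] at h
      refine ⟨vec b, ?_⟩
      rw [insert_vec]
      intro j
      fin_cases j
      · exact ⟨_, h.1.1, e0⟩
      · exact ⟨_, h.1.2, e1⟩
      · exact ⟨_, h.2, e2⟩
  | FT.n b c0 c1 c2, t + 1, R, h => by
      simp only [check, Bool.and_eq_true, Bool.or_eq_true, List.contains_iff_mem] at h
      refine ⟨vec b, ?_⟩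
      rw [insert_vec]
      obtain ⟨⟨h0, h1⟩, h2⟩ := h
      intro j
      fin_cases j
      · rcases h0 with h0 | h0
        · exact Or.inl ⟨_, h0, e0⟩
        · obtain ⟨b', hb'⟩ := check_sound c0 t _ h0
          refine Or.inr ⟨b', Trap.mono t (Set.insert_subset_insert ?_) hb'⟩
          rintro v ⟨u, hu, rfl⟩
          rw [List.mem_filterMap] at hu
          obtain ⟨w, hw, hwu⟩ := hu
          refine ⟨w, hw, ?_⟩
          split at hwu
          · exact absurd hwu (by simp)
          · rename_i hne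
            simp only [Option.some.injEq] at hwu
            subst hwu
            funext k
            fin_cases k <;> simp [vec] <;> omega
      · rcases h1 with h1 | h1
        · exact Or.inl ⟨_, h1, e1⟩
        · obtain ⟨b', hb'⟩ := check_sound c1 t _ h1
          refine Or.inr ⟨b', Trap.mono t (Set.insert_subset_insert ?_) hb'⟩
          rintro v ⟨u, hu, rfl⟩
          rw [List.mem_filterMap] at hu
          obtain ⟨w, hw, hwu⟩ := hu
          refine ⟨w, hw, ?_⟩
          split at hwu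
          · exact absurd hwu (by simp)
          · rename_i hne
            simp only [Option.some.injEq] at hwu
            subst hwu
            funext k
            fin_cases k <;> simp [vec] <;> omega
      · rcases h2 with h2 | h2
        · exact Or.inl ⟨_, h2, e2⟩
        · obtain ⟨b', hb'⟩ := check_sound c2 t _ h2
          refine Or.inr ⟨b', Trap.mono t (Set.insert_subset_insert ?_) hb'⟩
          rintro v ⟨u, hu, rfl⟩
          rw [List.mem_filterMap] at hu
          obtain ⟨w, hw, hwu⟩ := hu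
          refine ⟨w, hw, ?_⟩
          split at hwu
          · exact absurd hwu (by simp)
          · rename_i hne
            simp only [Option.some.injEq] at hwu
            subst hwu
            funext k
            fin_cases k <;> simp [vec] <;> omega

/-- In dimension three Breaker traps the fool within six steps. -/
theorem trap_three : ∃ b : Fin 3 → ℕ, Trap 6 {b} := by
  obtain ⟨b, hb⟩ := check_sound tree 6 [] tree_ok
  refine ⟨b, ?_⟩
  have : (insert b {v | ∃ u ∈ ([] : List (ℕ × ℕ × ℕ)), vec u = v} : Set (Fin 3 → ℕ)) = {b} := by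
    ext v; simp
  rw [this] at hb
  exact hb

/-! ### From the fool game to the sequence game -/

section Main

variable {d n : ℕ}

/-- The invariant kept by Breaker after `i` moves. `D m` is the number of consecutive-level steps
leading to the point claimed at Maker's time `m`, `R m` a set of offsets blocked above it. -/
def Inv (T : ℕ) (p : ℕ → Q d n) (i : ℕ) : Prop :=
  ∃ (D : ℕ → ℕ) (R : ℕ → Set (Fin d → ℕ)),
    (∀ m, m < i → Even m → D m ≤ T ∧ Trap (T - D m) (R m)) ∧
    (∀ m, m < i → Even m → ∀ m', m' < m → Even m' → ∀ j,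
      (p m).1 = (p m').1 + Pi.single j 1 → D m' + 1 ≤ D m) ∧
    (∀ m, m + 1 < i → Even m → ∀ v ∈ R m,
      (∃ a, a < i ∧ (p a).1 = (p m).1 + v) ∨ n < ∑ j, ((p m).1 + v) j) ∧
    (∀ m, m + 1 = i → Even m → ∃ b, ∀ v ∈ R m, v = b ∨
      (∃ a, a < i ∧ (p a).1 = (p m).1 + v) ∨ n < ∑ j, ((p m).1 + v) j)

theorem Inv.congr {T : ℕ} {p p' : ℕ → Q d n} {i : ℕ} (h : ∀ a, a < i → p a = p' a)
    (hI : Inv T p i) : Inv T p' i := by
  obtain ⟨D, R, h1, h2, h3, h4⟩ := hI
  refine ⟨D, R, h1, ?_, ?_, ?_⟩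
  · intro m hm em m' hm' em' j hj
    rw [← h m hm, ← h m' (hm'.trans hm)] at hj
    exact h2 m hm em m' hm' em' j hj
  · intro m hm em v hv
    rcases h3 m hm em v hv with ⟨a, ha, hh⟩ | hh
    · left; exact ⟨a, ha, by rw [← h a ha, ← h m (by omega)]; exact hh⟩
    · right; rw [← h m (by omega)]; exact hh
  · intro m hm em
    obtain ⟨b, hb⟩ := h4 m hm em
    refine ⟨b, fun v hv => ?_⟩
    rcases hb v hv with hh | ⟨a, ha, hh⟩ | hh
    · exact Or.inl hh
    · right; left; exact ⟨a, ha, by rw [← h a ha, ← h m (by omega)]; exact hh⟩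
    · right; right; rw [← h m (by omega)]; exact hh

theorem Inv.zero (T : ℕ) (p : ℕ → Q d n) : Inv T p 0 :=
  ⟨fun _ => 0, fun _ => ∅, by intro m hm; omega, by intro m hm; omega, by intro m hm; omega,
    by intro m hm; omega⟩

/-- Maker's move keeps the invariant (in its pending form). -/
theorem Inv.maker {T : ℕ} {b0 : Fin d → ℕ} (hb0 : Trap T {b0}) {p : ℕ → Q d n} {i : ℕ}
    (hi : Even i) (hnew : ∀ a, a < i → p a ≠ p i) (hI : Inv T p i) : Inv T p (i + 1) := by
  classical
  obtain ⟨D, R, h1, h2, h3, h4⟩ := hI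
  -- parents
  by_cases hS : ∃ m, m < i ∧ Even m ∧ ∃ j, (p i).1 = (p m).1 + Pi.single j 1
  · -- choose the parent with the largest D
    obtain ⟨m0, ⟨hm0, em0, j, hj⟩, hmax⟩ : ∃ m0, (m0 < i ∧ Even m0 ∧
        ∃ j, (p i).1 = (p m0).1 + Pi.single j 1) ∧
        ∀ m, (m < i ∧ Even m ∧ ∃ j, (p i).1 = (p m).1 + Pi.single j 1) → D m ≤ D m0 := by
      let S : Finset ℕ := (Finset.range i).filter
        (fun m => Even m ∧ ∃ j, (p i).1 = (p m).1 + Pi.single j 1)
      have hne : S.Nonempty := by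
        obtain ⟨m, hm, em, hj⟩ := hS
        exact ⟨m, by simp only [S, Finset.mem_filter, Finset.mem_range]; exact ⟨hm, em, hj⟩⟩
      obtain ⟨m0, hm0, hmax⟩ := S.exists_max_image D hne
      simp only [S, Finset.mem_filter, Finset.mem_range] at hm0 hmax
      exact ⟨m0, hm0, hmax⟩
    have hm01 : m0 + 1 < i := by
      obtain ⟨a, ha⟩ := em0
      obtain ⟨b, hb⟩ := hi
      omega
    have hnot : (Pi.single j 1 : Fin d → ℕ) ∉ R m0 := by
      intro hmem
      rcases h3 m0 hm01 em0 _ hmem with ⟨a, ha, hh⟩ | hh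
      · exact hnew a ha (Subtype.ext (by rw [hh, hj]))
      · rw [← hj] at hh
        exact absurd (p i).2 (by omega)
    obtain ⟨hDT, htrap⟩ := h1 m0 hm0 em0
    obtain ⟨t, ht⟩ : ∃ t, T - D m0 = t + 1 := by
      rcases Nat.eq_zero_or_pos (T - D m0) with h0 | h0
      · rw [h0] at htrap
        exact absurd (htrap j) hnot
      · exact ⟨T - D m0 - 1, by omega⟩
    rw [ht] at htrap
    rcases htrap j with hh | ⟨b, hb⟩
    · exact absurd hh hnot
    refine ⟨Function.update D i (D m0 + 1), Function.update R i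
      (insert b {v | v + Pi.single j 1 ∈ R m0}), ?_, ?_, ?_, ?_⟩
    · intro m hm em
      rcases Nat.lt_succ_iff_lt_or_eq.mp hm with hlt | rfl
      · rw [Function.update_of_ne hlt.ne, Function.update_of_ne hlt.ne]
        exact h1 m hlt em
      · rw [Function.update_self, Function.update_self]
        refine ⟨by omega, ?_⟩
        have : T - (D m0 + 1) = t := by omega
        rw [this]
        exact hb
    · intro m hm em m' hm' em' j' hj'
      have hm'i : m' < i := by omega
      rw [Function.update_of_ne hm'i.ne]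
      rcases Nat.lt_succ_iff_lt_or_eq.mp hm with hlt | rfl
      · rw [Function.update_of_ne hlt.ne]
        exact h2 m hlt em m' hm' em' j' hj'
      · rw [Function.update_self]
        exact Nat.succ_le_succ (hmax m' ⟨hm'i, em', j', hj'⟩)
    · intro m hm em v hv
      have hlt : m < i := by omega
      rw [Function.update_of_ne hlt.ne] at hv
      have hm1 : m + 1 < i := by
        obtain ⟨a, ha⟩ := em
        obtain ⟨c, hc⟩ := hi
        omega
      rcases h3 m hm1 em v hv with ⟨a, ha, hh⟩ | hh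
      · exact Or.inl ⟨a, by omega, hh⟩
      · exact Or.inr hh
    · intro m hm em
      obtain rfl : m = i := by omega
      rw [Function.update_self]
      refine ⟨b, fun v hv => ?_⟩
      rcases hv with hv | hv
      · exact Or.inl hv
      · rcases h3 m0 hm01 em0 _ hv with ⟨a, ha, hh⟩ | hh
        · right; left
          exact ⟨a, by omega, by rw [hh, hj]; funext k; simp only [Pi.add_apply]; ring⟩
        · right; right
          have : (p m).1 + v = (p m0).1 + (v + Pi.single j 1) := by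
            rw [hj]; funext k; simp only [Pi.add_apply]; ring
          rw [this]; exact hh
  · refine ⟨Function.update D i 0, Function.update R i {b0}, ?_, ?_, ?_, ?_⟩
    · intro m hm em
      rcases Nat.lt_succ_iff_lt_or_eq.mp hm with hlt | rfl
      · rw [Function.update_of_ne hlt.ne, Function.update_of_ne hlt.ne]
        exact h1 m hlt em
      · rw [Function.update_self, Function.update_self]
        exact ⟨Nat.zero_le _, hb0⟩
    · intro m hm em m' hm' em' j' hj'
      have hm'i : m' < i := by omega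
      rw [Function.update_of_ne hm'i.ne]
      rcases Nat.lt_succ_iff_lt_or_eq.mp hm with hlt | rfl
      · rw [Function.update_of_ne hlt.ne]
        exact h2 m hlt em m' hm' em' j' hj'
      · exact absurd ⟨m', hm'i, em', j', hj'⟩ hS
    · intro m hm em v hv
      have hlt : m < i := by omega
      rw [Function.update_of_ne hlt.ne] at hv
      have hm1 : m + 1 < i := by
        obtain ⟨a, ha⟩ := em
        obtain ⟨c, hc⟩ := hi
        omega
      rcases h3 m hm1 em v hv with ⟨a, ha, hh⟩ | hh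
      · exact Or.inl ⟨a, by omega, hh⟩
      · exact Or.inr hh
    · intro m hm em
      obtain rfl : m = i := by omega
      rw [Function.update_self]
      exact ⟨b0, fun v hv => Or.inl hv⟩

/-- Breaker has a reply restoring the invariant. -/
theorem Inv.breaker {T : ℕ} {p : ℕ → Q d n} {i : ℕ} (hi : ¬ Even i)
    (hfree : ∃ z, ∀ a, a < i → p a ≠ z) (hI : Inv T p i) :
    ∃ z, (∀ a, a < i → p a ≠ z) ∧ Inv T (Function.update p i z) (i + 1) := by
  classical
  obtain ⟨D, R, h1, h2, h3, h4⟩ := hI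
  have hi0 : 0 < i := by
    rcases Nat.eq_zero_or_pos i with rfl | h
    · exact absurd (by decide) hi
    · exact h
  have em0 : Even (i - 1) := by
    rw [Nat.not_even_iff_odd] at hi
    obtain ⟨a, ha⟩ := hi
    exact ⟨a, by omega⟩
  obtain ⟨b, hb⟩ := h4 (i - 1) (by omega) em0
  obtain ⟨z0, hz0⟩ := hfree
  obtain ⟨z, hz, hzb⟩ : ∃ z : Q d n, (∀ a, a < i → p a ≠ z) ∧
      ((z.1 = (p (i - 1)).1 + b) ∨ (∃ a, a < i ∧ (p a).1 = (p (i - 1)).1 + b) ∨
        n < ∑ j, ((p (i - 1)).1 + b) j) := by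
    by_cases hc : ∃ a, a < i ∧ (p a).1 = (p (i - 1)).1 + b
    · exact ⟨z0, hz0, Or.inr (Or.inl hc)⟩
    · by_cases hs : n < ∑ j, ((p (i - 1)).1 + b) j
      · exact ⟨z0, hz0, Or.inr (Or.inr hs)⟩
      · refine ⟨⟨(p (i - 1)).1 + b, by omega⟩, ?_, Or.inl rfl⟩
        intro a ha he
        exact hc ⟨a, ha, by rw [he]⟩
  refine ⟨z, hz, D, R, ?_, ?_, ?_, ?_⟩
  · intro m hm em
    have : m ≠ i := fun h => hi (h ▸ em)
    exact h1 m (by omega) em
  · intro m hm em m' hm' em' j hj
    have hmi : m ≠ i := fun h => hi (h ▸ em)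
    rw [Function.update_of_ne hmi, Function.update_of_ne (by omega)] at hj
    exact h2 m (by omega) em m' hm' em' j hj
  · intro m hm em v hv
    have hmi : m ≠ i := fun h => hi (h ▸ em)
    rw [Function.update_of_ne hmi]
    by_cases hm1 : m + 1 < i
    · rcases h3 m hm1 em v hv with ⟨a, ha, hh⟩ | hh
      · exact Or.inl ⟨a, by omega, by rw [Function.update_of_ne ha.ne]; exact hh⟩
      · exact Or.inr hh
    · obtain rfl : m = i - 1 := by omega
      rcases hb v hv with rfl | ⟨a, ha, hh⟩ | hh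
      · rcases hzb with hh | ⟨a, ha, hh⟩ | hh
        · exact Or.inl ⟨i, by omega, by rw [Function.update_self]; exact hh⟩
        · exact Or.inl ⟨a, by omega, by rw [Function.update_of_ne ha.ne]; exact hh⟩
        · exact Or.inr hh
      · exact Or.inl ⟨a, by omega, by rw [Function.update_of_ne ha.ne]; exact hh⟩
      · exact Or.inr hh
  · intro m hm em
    exact absurd (by obtain rfl : m = i := by omega
                     exact em) hi

instance finQ : Finite (Q d n) := by
  have : Function.Injective (fun x : Q d n => fun j : Fin d => (⟨x.1 j, by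
      have h1 := x.2
      have h2 : x.1 j ≤ ∑ j, x.1 j := Finset.single_le_sum (fun _ _ => Nat.zero_le _)
        (Finset.mem_univ j)
      omega⟩ : Fin (n + 1))) := by
    intro x y hxy
    apply Subtype.ext
    funext j
    have := congrFun hxy j
    simpa using this
  exact Finite.of_injective _ this

theorem exists_notMem {P : Type} [Finite P] (l : List P) (h : l.length < Nat.card P) :
    ∃ z, z ∉ l := by
  classical
  by_contra hcon
  push Not at hcon
  have := Fintype.ofFinite P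
  rw [Nat.card_eq_fintype_card] at h
  have h1 : (Finset.univ : Finset P) ⊆ l.toFinset := fun z _ => by simpa using hcon z
  have h2 := Finset.card_le_card h1
  rw [Finset.card_univ] at h2
  have h3 := l.toFinset_card_le
  omega

/-- The function listing the elements of a list. -/
def fn (z0 : Q d n) (l : List (Q d n)) : ℕ → Q d n := fun a => l.getD a z0

open Classical in
/-- Breaker's strategy. -/
noncomputable def tau (T : ℕ) (z0 : Q d n) (l : List (Q d n)) : Q d n :=
  if h : ∃ z, z ∉ l ∧ Inv T (fn z0 (l ++ [z])) (l.length + 1) then h.choose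
  else if h : ∃ z, z ∉ l then h.choose else z0

theorem tau_legal (T : ℕ) (z0 : Q d n) : Legal (tau T z0) := by
  intro l _ hl
  unfold tau
  split_ifs with h1 h2
  · exact h1.choose_spec.1
  · exact h2.choose_spec
  · exact absurd (exists_notMem l hl) h2

theorem hist_mem {P : Type} (p : ℕ → P) (i : ℕ) (z : P) :
    z ∈ (List.range i).map p ↔ ∃ a, a < i ∧ p a = z := by
  simp [List.mem_map]

theorem inv_all {T : ℕ} {b0 : Fin d → ℕ} (hb0 : Trap T {b0}) (z0 : Q d n) {p : ℕ → Q d n}
    (hp : IsPlay p) (hB : BreakerFollows (tau T z0) p) :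
    ∀ i, i ≤ Nat.card (Q d n) → Inv T p i := by
  intro i
  induction i with
  | zero => intro _; exact Inv.zero T p
  | succ i ih =>
    intro hi
    have hI := ih (by omega)
    by_cases he : Even i
    · refine Inv.maker hb0 he ?_ hI
      intro a ha hh
      have := hp (show a ∈ {i | i < Nat.card (Q d n)} from (by simp only [Set.mem_ofPred_eq]; omega))
        (show i ∈ {i | i < Nat.card (Q d n)} from (by simp only [Set.mem_ofPred_eq]; omega)) hh
      omega
    · set l := (List.range i).map p with hl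
      have hlen : l.length = i := by simp [hl]
      obtain ⟨z, hz, hzI⟩ := Inv.breaker (p := p) he (by
        obtain ⟨z, hz⟩ := exists_notMem l (by omega)
        refine ⟨z, fun a ha hh => hz ?_⟩
        rw [hl, hist_mem]
        exact ⟨a, ha, hh⟩) hI
      have hfn : ∀ w : Q d n, ∀ a, a < i + 1 → fn z0 (l ++ [w]) a = Function.update p i w a := by
        intro w a ha
        unfold fn
        rcases Nat.lt_succ_iff_lt_or_eq.mp ha with hlt | rfl
        · rw [Function.update_of_ne hlt.ne, List.getD_append _ _ _ _ (by omega)]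
          rw [List.getD_eq_getElem _ _ (by omega)]
          simp [hl]
        · rw [Function.update_self, List.getD_append_right _ _ _ _ (by omega), hlen]
          simp
      have hex : ∃ z, z ∉ l ∧ Inv T (fn z0 (l ++ [z])) (l.length + 1) := by
        refine ⟨z, ?_, ?_⟩
        · rw [hl, hist_mem]
          rintro ⟨a, ha, hh⟩
          exact hz a ha hh
        · rw [hlen]
          exact hzI.congr (fun a ha => (hfn z a ha).symm)
      have hpi : p i = hex.choose := by
        rw [hB i (by omega) he, ← hl]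
        unfold tau
        rw [dif_pos hex]
      have hspec := hex.choose_spec.2
      rw [← hpi, hlen] at hspec
      refine hspec.congr (fun a ha => ?_)
      rw [hfn (p i) a ha]
      rcases Nat.lt_succ_iff_lt_or_eq.mp ha with hlt | rfl
      · rw [Function.update_of_ne hlt.ne]
      · rw [Function.update_self]

/-- The counting step: levels and depths along a temporal chain. -/
theorem count (k T n : ℕ) (g D : ℕ → ℕ) (h1 : ∀ a, a + 1 < k → g a + 1 ≤ g (a + 1))
    (h2 : ∀ a, a + 1 < k → g (a + 1) = g a + 1 → D a + 1 ≤ D (a + 1))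
    (h3 : ∀ a, a < k → D a ≤ T) (h4 : ∀ a, a < k → g a ≤ n) :
    k ≤ n + 1 - (n + 1) / (T + 2) := by
  have c1 : ∀ r a, a + r < k → g a + r ≤ g (a + r) ∧
      (g (a + r) = g a + r → D a + r ≤ D (a + r)) := by
    intro r
    induction r with
    | zero => intro a _; simp
    | succ r ih =>
      intro a ha
      obtain ⟨i1, i2⟩ := ih a (by omega)
      have j1 := h1 (a + r) (by omega)
      have e : a + (r + 1) = a + r + 1 := by ring
      rw [e]
      refine ⟨by omega, fun h => ?_⟩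
      have k1 : g (a + r) = g a + r := by omega
      have := i2 k1
      have := h2 (a + r) (by omega) (by omega)
      omega
  have c2 : ∀ a, a + (T + 1) < k → g a + (T + 2) ≤ g (a + (T + 1)) := by
    intro a ha
    obtain ⟨i1, i2⟩ := c1 (T + 1) a ha
    by_contra hcon
    have := i2 (by omega)
    have := h3 _ ha
    omega
  have c3 : ∀ c r, r + c * (T + 1) < k → g r + c * (T + 2) ≤ g (r + c * (T + 1)) := by
    intro c
    induction c with
    | zero => intro r _; simp
    | succ c ih =>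
      intro r hr
      have e1 : (c + 1) * (T + 1) = c * (T + 1) + (T + 1) := by ring
      have e2 : (c + 1) * (T + 2) = c * (T + 2) + (T + 2) := by ring
      rw [e1] at hr
      have := ih r (by omega)
      have := c2 (r + c * (T + 1)) (by omega)
      rw [e1, e2, ← add_assoc r]
      omega
  rcases Nat.eq_zero_or_pos k with rfl | hk
  · exact Nat.zero_le _
  obtain ⟨c, r, hr, hcr⟩ : ∃ c r, r < T + 1 ∧ k - 1 = r + c * (T + 1) :=
    ⟨(k - 1) / (T + 1), (k - 1) % (T + 1), Nat.mod_lt _ (Nat.succ_pos _), by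
      have := Nat.mod_add_div (k - 1) (T + 1)
      rw [mul_comm] at this
      exact this.symm⟩
  have a1 := c3 c r (by omega)
  have a2 := (c1 r 0 (by
    have : r ≤ r + c * (T + 1) := Nat.le_add_right _ _
    omega)).1
  rw [Nat.zero_add] at a2
  have a3 := h4 (r + c * (T + 1)) (by omega)
  have a4 : c * (T + 2) = c * (T + 1) + c := by ring
  obtain ⟨e, he⟩ : ∃ e, n + 1 = k + e := ⟨n + 1 - k, by omega⟩
  have hce : c ≤ e := by omega
  have hlt : (k + e) / (T + 2) < e + 1 := by
    apply Nat.div_lt_of_lt_mul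
    have b1 : c * (T + 1) ≤ e * (T + 1) := Nat.mul_le_mul_right _ hce
    have b2 : (T + 2) * (e + 1) = e * (T + 1) + e + T + 2 := by ring
    omega
  rw [he]
  omega

theorem step_of_lt {x y : Fin d → ℕ} (h : x ≤ y) (hs : ∑ j, y j = ∑ j, x j + 1) :
    ∃ j, y = x + Pi.single j 1 := by
  have hex : ∃ j, x j < y j := by
    by_contra hcon
    push Not at hcon
    have : ∑ j, y j ≤ ∑ j, x j := Finset.sum_le_sum (fun j _ => hcon j)
    omega
  obtain ⟨j, hj⟩ := hex
  refine ⟨j, ?_⟩
  have hle : x + Pi.single j 1 ≤ y := by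
    intro i
    by_cases hij : i = j
    · subst hij; simp only [Pi.add_apply, Pi.single_eq_same]; omega
    · simp only [Pi.add_apply, Pi.single_eq_of_ne hij, Nat.add_zero]; exact h i
  have hsum : ∑ i, (x + Pi.single j 1 : Fin d → ℕ) i = ∑ i, y i := by
    simp only [Pi.add_apply, Finset.sum_add_distrib]
    rw [hs]
    simp [Finset.sum_pi_single']
  funext i
  by_contra hne
  have hlt : (x + Pi.single j 1 : Fin d → ℕ) i < y i :=
    lt_of_le_of_ne (hle i) (fun h => hne h.symm)
  have : ∑ i, (x + Pi.single j 1 : Fin d → ℕ) i < ∑ i, y i :=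
    Finset.sum_lt_sum (fun i _ => hle i) ⟨i, Finset.mem_univ i, hlt⟩
  omega

theorem sum_lt_of_lt {x y : Q d n} (h : x < y) : ∑ j, x.1 j < ∑ j, y.1 j := by
  have hle : x.1 ≤ y.1 := h.le
  have hne : x.1 ≠ y.1 := fun e => h.ne (Subtype.ext e)
  obtain ⟨j, hj⟩ : ∃ j, x.1 j ≠ y.1 j := by
    by_contra hcon
    push Not at hcon
    exact hne (funext hcon)
  exact Finset.sum_lt_sum (fun i _ => hle i) ⟨j, Finset.mem_univ j, lt_of_le_of_ne (hle j) hj⟩

theorem score_le {T : ℕ} {p : ℕ → Q d n} (hI : Inv T p (Nat.card (Q d n))) {k : ℕ}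
    (hk : ScoreAtLeast p k) : k ≤ n + 1 - (n + 1) / (T + 2) := by
  obtain ⟨D, R, h1, h2, -, -⟩ := hI
  obtain ⟨s, hs, hse, hsp⟩ := hk
  let S : ℕ → ℕ := fun a => if h : a < k then s ⟨a, h⟩ else 0
  have hS : ∀ a (h : a < k), S a = s ⟨a, h⟩ := fun a h => by simp only [S, dif_pos h]
  refine count k T n (fun a => ∑ j, (p (S a)).1 j) (fun a => D (S a)) ?_ ?_ ?_ ?_
  · intro a ha
    have hlt : p (S a) < p (S (a + 1)) := by
      rw [hS a (by omega), hS (a + 1) ha]
      exact hsp (Fin.mk_lt_mk.mpr (Nat.lt_succ_self a))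
    exact sum_lt_of_lt hlt
  · intro a ha hstep
    have hlt : p (S a) < p (S (a + 1)) := by
      rw [hS a (by omega), hS (a + 1) ha]
      exact hsp (Fin.mk_lt_mk.mpr (Nat.lt_succ_self a))
    have hlt' : S a < S (a + 1) := by
      rw [hS a (by omega), hS (a + 1) ha]
      exact hs (Fin.mk_lt_mk.mpr (Nat.lt_succ_self a))
    obtain ⟨j, hj⟩ := step_of_lt (x := (p (S a)).1) (y := (p (S (a + 1))).1) hlt.le hstep
    have q1 := hse ⟨a + 1, ha⟩
    have q0 := hse ⟨a, by omega⟩
    rw [← hS (a + 1) ha] at q1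
    rw [← hS a (by omega)] at q0
    exact h2 (S (a + 1)) q1.1 q1.2 (S a) hlt' q0.2 j hj
  · intro a ha
    have q := hse ⟨a, ha⟩
    rw [← hS a ha] at q
    exact (h1 (S a) q.1 q.2).1
  · intro a ha
    exact (p (S a)).2

/-- The play in which Maker follows `s` and Breaker follows `t`. -/
def histo {P : Type} (s t : List P → P) [DecidablePred (fun i : ℕ => Even i)] : ℕ → List P
  | 0 => []
  | i + 1 => histo s t i ++ [if Even i then s (histo s t i) else t (histo s t i)]

theorem exists_play {P : Type} (s t : List P → P) (hs : Legal s) (ht : Legal t) :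
    ∃ p : ℕ → P, IsPlay p ∧ MakerFollows s p ∧ BreakerFollows t p := by
  let p : ℕ → P := fun i => if Even i then s (histo s t i) else t (histo s t i)
  have hh : ∀ i, histo s t i = (List.range i).map p := by
    intro i
    induction i with
    | zero => rfl
    | succ i ih =>
      rw [List.range_succ, List.map_append, ← ih]
      rfl
  have hlen : ∀ i, (histo s t i).length = i := fun i => by rw [hh i]; simp
  have hnd : ∀ i, i ≤ Nat.card P → (histo s t i).Nodup := by
    intro i
    induction i with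
    | zero => intro _; exact List.nodup_nil
    | succ i ih =>
      intro hi
      have hn := ih (by omega)
      have : (if Even i then s (histo s t i) else t (histo s t i)) ∉ histo s t i := by
        split_ifs
        · exact hs _ hn (by rw [hlen]; omega)
        · exact ht _ hn (by rw [hlen]; omega)
      show (histo s t i ++ [_]).Nodup
      rw [List.nodup_append]
      refine ⟨hn, List.nodup_singleton _, ?_⟩
      intro a ha b hb
      rw [List.mem_singleton] at hb
      rintro rfl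
      exact this (hb ▸ ha)
  refine ⟨p, ?_, ?_, ?_⟩
  · have key : ∀ a b, a < b → b < Nat.card P → p a ≠ p b := by
      intro a b hab hb he
      have hn := hnd (b + 1) hb
      rw [hh] at hn
      rw [List.nodup_map_iff_inj_on List.nodup_range] at hn
      have := hn a (List.mem_range.mpr (by omega)) b (List.mem_range.mpr (by omega)) he
      omega
    intro a ha b hb he
    rcases lt_trichotomy a b with h | h | h
    · exact absurd he (key a b h hb)
    · exact h
    · exact absurd he.symm (key b a h ha)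
  · intro i hi he
    show (if Even i then s (histo s t i) else t (histo s t i)) = _
    rw [if_pos he, hh]
  · intro i hi he
    show (if Even i then s (histo s t i) else t (histo s t i)) = _
    rw [if_neg he, hh]

/-- The value of the sequence game is bounded once the fool is trapped. -/
theorem gSeq_le {T : ℕ} {b0 : Fin d → ℕ} (hb0 : Trap T {b0}) :
    gSeq (Q d n) ≤ n + 1 - (n + 1) / (T + 2) := by
  apply csSup_le'
  rintro k ⟨s, hs, hg⟩
  have z0 : Q d n := ⟨0, by simp⟩
  obtain ⟨p, hp, hM, hB⟩ := exists_play s (tau T z0) hs (tau_legal T z0)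
  exact score_le (inv_all hb0 z0 hp hB _ le_rfl) (hg p hp hM)

theorem height_eq (hd : 0 < d) : height (Q d n) = n + 1 := by
  apply le_antisymm
  · apply csSup_le'
    rintro k ⟨c, hc⟩
    by_contra hcon
    push Not at hcon
    have key : ∀ a (h : a < k), a ≤ ∑ j, (c ⟨a, h⟩).1 j := by
      intro a
      induction a with
      | zero => intro _; exact Nat.zero_le _
      | succ a ih =>
        intro h
        have := ih (by omega)
        have h2 := sum_lt_of_lt (hc (show (⟨a, by omega⟩ : Fin k) < ⟨a + 1, h⟩ from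
          Fin.mk_lt_mk.mpr (Nat.lt_succ_self a)))
        omega
    have := key (n + 1) hcon
    have := (c ⟨n + 1, hcon⟩).2
    omega
  · apply le_csSup
    · refine ⟨n + 1, ?_⟩
      rintro k ⟨c, hc⟩
      by_contra hcon
      push Not at hcon
      have key : ∀ a (h : a < k), a ≤ ∑ j, (c ⟨a, h⟩).1 j := by
        intro a
        induction a with
        | zero => intro _; exact Nat.zero_le _
        | succ a ih =>
          intro h
          have := ih (by omega)
          have h2 := sum_lt_of_lt (hc (show (⟨a, by omega⟩ : Fin k) < ⟨a + 1, h⟩ from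
            Fin.mk_lt_mk.mpr (Nat.lt_succ_self a)))
          omega
      have := key (n + 1) hcon
      have := (c ⟨n + 1, hcon⟩).2
      omega
    · refine ⟨fun a => ⟨Pi.single ⟨0, hd⟩ a.1, ?_⟩, ?_⟩
      · rw [Finset.sum_pi_single']
        simp only [Finset.mem_univ, if_true]
        omega
      · intro a b hab
        refine Subtype.mk_lt_mk.mpr ?_
        rw [Pi.lt_def]
        refine ⟨fun i => ?_, ⟨0, hd⟩, ?_⟩
        · by_cases hi : i = ⟨0, hd⟩
          · subst hi; simp only [Pi.single_eq_same]; exact le_of_lt hab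
          · simp only [Pi.single_eq_of_ne hi]; exact le_rfl
        · simp only [Pi.single_eq_same]; exact hab

end Main

/-- **Result.** On the simplex poset `Q 3 n` of height `n + 1`, the value of the sequence game is
at most `(n + 1) - (n + 1) / 8` (floor division), hence strictly smaller than the height for all
`n ≥ 7`. -/
theorem result (n : ℕ) :
    height (Q 3 n) = n + 1 ∧
    gSeq (Q 3 n) ≤ (n + 1) - (n + 1) / 8 ∧
    (7 ≤ n → gSeq (Q 3 n) < height (Q 3 n)) := by
  obtain ⟨b, hb⟩ := trap_three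
  have h1 : height (Q 3 n) = n + 1 := height_eq (by norm_num)
  have h2 : gSeq (Q 3 n) ≤ (n + 1) - (n + 1) / 8 := gSeq_le hb
  refine ⟨h1, h2, fun hn => ?_⟩
  rw [h1]
  have : 1 ≤ (n + 1) / 8 := (Nat.one_le_div_iff (by norm_num)).mpr (by omega)
  omega

end Pool.Agent.Results.MP_ee952b_co.FoolTrapped
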